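import Pool.Agent.Run7.h404.FL.Iface

/-!
# Project FL (helper404), piece NEAR: topology near a fibre
-/

set_option autoImplicit false

namespace Run7.h468.FL

open Set Topology Filter Run7.h404.FL

variable {Q : Type} [MetricSpace Q] {Φ : ℝ → E5 → E5} {p : E5 → Q}

theorem cont_right (h : Fl Φ p) (t : ℝ) : Continuous (fun x => Φ t x) :=
  h.cont.comp (continuous_const.prodMk continuous_id)

theorem cont_left (h : Fl Φ p) (x : E5) : Continuous (fun t => Φ t x) :=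
  h.cont.comp (continuous_id.prodMk continuous_const)

theorem p_flow (h : Fl Φ p) (t : ℝ) (x : E5) : p (Φ t x) = p x := ((h.fib x _).2 ⟨t, rfl⟩).symm

theorem near1 (h : Fl Φ p) (K W : Set E5) (q : Q) (hK : IsCompact K) (hW : IsOpen W)
    (hq : ∀ y ∈ K, p y = q → y ∈ W) : ∃ B ∈ 𝓝 q, ∀ y ∈ K, p y ∈ B → y ∈ W := by
  have hc : IsClosed (p '' (K \ W)) := ((hK.diff hW).image h.pcont).isClosed
  refine ⟨(p '' (K \ W))ᶜ, hc.isOpen_compl.mem_nhds ?_, ?_⟩
  · rintro ⟨y, ⟨hy, hyW⟩, hyq⟩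
    exact hyW (hq y hy hyq)
  · intro y hy hyB
    by_contra hyW
    exact hyB ⟨y, ⟨hy, hyW⟩, rfl⟩

theorem near2 (h : Fl Φ p) (q : Q) (hq : Cp p q) : ∃ B ∈ 𝓝 q, IsOpen B ∧ ∃ R : ℝ, ∀ y, p y ∈ B → ‖y‖ < R := by
  obtain ⟨R, hR⟩ := hq.isBounded.subset_ball (0 : E5)
  have hS : IsCompact (Metric.sphere (0 : E5) R) := isCompact_sphere 0 R
  have hcl : IsClosed (p '' Metric.sphere (0 : E5) R) := (hS.image h.pcont).isClosed
  have hop : IsOpen (p '' Metric.ball (0 : E5) R \ p '' Metric.sphere (0 : E5) R) :=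
    (h.popen _ Metric.isOpen_ball).sdiff hcl
  have hmem : q ∈ p '' Metric.ball (0 : E5) R \ p '' Metric.sphere (0 : E5) R := by
    constructor
    · obtain ⟨x, hx⟩ := h.psurj q
      exact ⟨x, hR hx, hx⟩
    · rintro ⟨y, hy, hyq⟩
      have h1 : y ∈ Metric.ball (0 : E5) R := hR hyq
      rw [Metric.mem_ball] at h1
      rw [Metric.mem_sphere] at hy
      linarith
  refine ⟨_, hop.mem_nhds hmem, hop, R, ?_⟩
  rintro x ⟨⟨y, hy, hyx⟩, hx2⟩
  by_contra hxR
  rw [not_lt] at hxR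
  obtain ⟨t, ht⟩ := (h.fib x y).1 hyx.symm
  have hnc : Continuous fun s : ℝ => ‖Φ s x‖ := (cont_left h x).norm
  have h0 : R ≤ ‖Φ 0 x‖ := by rw [h.zero]; exact hxR
  have h1 : ‖Φ t x‖ ≤ R := by
    rw [ht]
    rw [Metric.mem_ball, dist_zero_right] at hy
    exact hy.le
  obtain ⟨s, hs⟩ := mem_range_of_exists_le_of_exists_ge hnc ⟨t, h1⟩ ⟨0, h0⟩
  apply hx2
  refine ⟨Φ s x, ?_, p_flow h s x⟩
  rw [Metric.mem_sphere, dist_zero_right]
  exact hs

theorem near (h : Fl Φ p) [CompactSpace Q] :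
    (∀ (K W : Set E5) (q : Q), IsCompact K → IsOpen W → (∀ y ∈ K, p y = q → y ∈ W) →
      ∃ B ∈ 𝓝 q, ∀ y ∈ K, p y ∈ B → y ∈ W) ∧
    (∀ q : Q, Cp p q → ∃ B ∈ 𝓝 q, ∃ R : ℝ, ∀ y, p y ∈ B → ‖y‖ < R) ∧
    IsClosed {q : Q | ¬ Cp p q} ∧
    (∀ P : Set Q, IsClosed P → (∀ q ∈ P, Cp p q) → IsCompact (p ⁻¹' P)) := by
  refine ⟨fun K W q hK hW hq => near1 h K W q hK hW hq, ?_, ?_, ?_⟩
  · intro q hq
    obtain ⟨B, hB, -, R, hR⟩ := near2 h q hq
    exact ⟨B, hB, R, hR⟩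
  · rw [← isOpen_compl_iff, isOpen_iff_mem_nhds]
    intro q hq
    have hq' : Cp p q := not_not.1 hq
    obtain ⟨B, hB, -, R, hR⟩ := near2 h q hq'
    refine Filter.mem_of_superset hB fun q' hq' => ?_
    show ¬ ¬ Cp p q'
    rw [not_not]
    refine Metric.isCompact_of_isClosed_isBounded (isClosed_singleton.preimage h.pcont) ?_
    refine (Metric.isBounded_ball (x := (0 : E5)) (r := R)).subset fun y hy => ?_
    rw [Metric.mem_ball, dist_zero_right]
    have hy' : p y = q' := hy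
    exact hR y (hy' ▸ hq')
  · intro P hP hPc
    refine Metric.isCompact_of_isClosed_isBounded (hP.preimage h.pcont) ?_
    refine hP.isCompact.induction_on (p := fun S => Bornology.IsBounded (p ⁻¹' S)) ?_ ?_ ?_ ?_
    · rw [preimage_empty]
      exact Bornology.isBounded_empty
    · intro s t hst ht
      exact ht.subset (preimage_mono hst)
    · intro s t hs ht
      rw [preimage_union]
      exact hs.union ht
    · intro q hq
      obtain ⟨B, hB, -, R, hR⟩ := near2 h q (hPc q hq)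
      refine ⟨B, mem_nhdsWithin_of_mem_nhds hB, ?_⟩
      refine (Metric.isBounded_ball (x := (0 : E5)) (r := R)).subset fun y hy => ?_
      rw [Metric.mem_ball, dist_zero_right]
      exact hR y hy

/-- **NEAR** -/
theorem t_NEAR : S_NEAR := fun _ _ _ _ _ h => near h

end Run7.h468.FL
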